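import Pool.Agent.Helper49.LC.St

set_option autoImplicit false

open scoped ContDiff

namespace Pool.Agent.Helper21.LC

open Pool.Agent.Helper14.LK Pool.Agent.Helper49.LC
open Pool.Agent.Helper14.LE (hd lt mk StLAG StEXL StIEA StIET)

variable {n : ℕ}

private def Gd (h : EE n → WW n) : Prop :=
  ContDiff ℝ ∞ h ∧ Isotropic h ∧ Immersive h ∧ Function.Injective h

private lemma dfd {E F : Type} [NormedAddCommGroup E] [NormedSpace ℝ E] [NormedAddCommGroup F]
    [NormedSpace ℝ F] {h : E → F} (hh : ContDiff ℝ ∞ h) (x : E) : HasFDerivAt h (fderiv ℝ h x) x :=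
  (hh.differentiable (by simp) x).hasFDerivAt

private lemma base : Gd (fun x : EE n => ((x, 0) : WW n)) := by
  have hd : ∀ x : EE n, HasFDerivAt (fun x : EE n => ((x, 0) : WW n))
      (ContinuousLinearMap.inl ℝ (EE n) (EE n)) x := fun x =>
    (ContinuousLinearMap.inl ℝ (EE n) (EE n)).hasFDerivAt
  refine ⟨by fun_prop, ?_, ?_, ?_⟩
  · intro x u v
    rw [(hd x).fderiv]
    simp [om]
  · intro x u hu
    rw [(hd x).fderiv] at hu
    simpa using hu
  · intro x x' h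
    exact (Prod.mk.inj h).1

private lemma sdsymm {f g : WW n → WW n} (h : SD f g) : SD g f := by
  refine ⟨h.smi, h.sm, h.right, h.left, ?_⟩
  intro w a b
  have hid : ∀ c, fderiv ℝ f (g w) (fderiv ℝ g w c) = c := by
    intro c
    have h1 := (dfd h.sm (g w)).comp w (dfd h.smi w)
    have h2 : HasFDerivAt (f ∘ g) (ContinuousLinearMap.id ℝ (WW n)) w := by
      have : f ∘ g = fun w => w := funext h.right
      rw [this]
      exact hasFDerivAt_id w
    have h3 := h1.unique h2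
    have h4 := congrArg (fun L : WW n →L[ℝ] WW n => L c) h3
    simpa using h4
  have h5 := h.sy (g w) (fderiv ℝ g w a) (fderiv ℝ g w b)
  rw [hid, hid] at h5
  exact h5.symm

private lemma sdinj {f g : WW n → WW n} (h : SD f g) : Function.Injective f := by
  intro a b hab
  rw [← h.left a, hab, h.left]

private lemma comp_left {f g : WW n → WW n} (hf : SD f g) {h : EE n → WW n} (hh : Gd h) :
    Gd (fun x => f (h x)) := by
  obtain ⟨h1, h2, h3, h4⟩ := hh
  have hd : ∀ x u, fderiv ℝ (fun x => f (h x)) x u = fderiv ℝ f (h x) (fderiv ℝ h x u) := by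
    intro x u
    have e : fderiv ℝ (fun x => f (h x)) x = (fderiv ℝ f (h x)).comp (fderiv ℝ h x) :=
      ((dfd hf.sm (h x)).comp x (dfd h1 x)).fderiv
    rw [e]
    rfl
  refine ⟨hf.sm.comp h1, ?_, ?_, ?_⟩
  · intro x u v
    rw [hd, hd, hf.sy]
    exact h2 x u v
  · intro x u hu
    rw [hd] at hu
    apply h3 x
    apply eq_of_om_eq
    intro c
    rw [← hf.sy (h x), hu]
    simp
  · exact (sdinj hf).comp h4

private lemma comp_right {h : EE n → WW n} (hh : Gd h) {θ : EE n → EE n} (t1 : ContDiff ℝ ∞ θ)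
    (t2 : Function.Injective θ) (t3 : ∀ x u, fderiv ℝ θ x u = 0 → u = 0) :
    Gd (fun x => h (θ x)) := by
  obtain ⟨h1, h2, h3, h4⟩ := hh
  have hd : ∀ x u, fderiv ℝ (fun x => h (θ x)) x u = fderiv ℝ h (θ x) (fderiv ℝ θ x u) := by
    intro x u
    have e : fderiv ℝ (fun x => h (θ x)) x = (fderiv ℝ h (θ x)).comp (fderiv ℝ θ x) :=
      ((dfd h1 (θ x)).comp x (dfd t1 x)).fderiv
    rw [e]
    rfl
  refine ⟨h1.comp t1, ?_, ?_, h4.comp t2⟩
  · intro x u v
    rw [hd, hd]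
    exact h2 _ _ _
  · intro x u hu
    rw [hd] at hu
    exact t3 x u (h3 _ _ hu)

private lemma scale {h : EE n → WW n} (hh : Gd h) {l : ℝ} (hl : 0 < l) :
    Gd (fun x => l • h (l⁻¹ • x)) := by
  obtain ⟨h1, h2, h3, h4⟩ := hh
  have hd : ∀ x u, fderiv ℝ (fun x => l • h (l⁻¹ • x)) x u = fderiv ℝ h (l⁻¹ • x) u := by
    intro x u
    have e1 : HasFDerivAt (fun x : EE n => l⁻¹ • x) (l⁻¹ • ContinuousLinearMap.id ℝ (EE n)) x :=
      (hasFDerivAt_id x).const_smul l⁻¹
    have e2 := ((dfd h1 (l⁻¹ • x)).comp x e1).const_smul l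
    have e3 : fderiv ℝ (fun x => l • h (l⁻¹ • x)) x =
        l • (fderiv ℝ h (l⁻¹ • x)).comp (l⁻¹ • ContinuousLinearMap.id ℝ (EE n)) := e2.fderiv
    rw [e3]
    show l • (fderiv ℝ h (l⁻¹ • x)) (l⁻¹ • u) = _
    rw [map_smul, smul_smul, mul_inv_cancel₀ hl.ne', one_smul]
  refine ⟨?_, ?_, ?_, ?_⟩
  · exact (h1.comp (contDiff_const_smul _)).const_smul l
  · intro x u v
    rw [hd, hd]
    exact h2 _ _ _
  · intro x u hu
    rw [hd] at hu
    exact h3 _ _ hu
  · intro x x' hx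
    have hx1 : h (l⁻¹ • x) = h (l⁻¹ • x') := smul_right_injective _ hl.ne' hx
    exact smul_right_injective _ (inv_ne_zero hl.ne') (h4 hx1)

/-- a continuous map is bounded on balls -/
private lemma bdd {F : Type} [NormedAddCommGroup F] (f : EE n → F) (hf : Continuous f) (r : ℝ) :
    ∃ M : ℝ, 0 ≤ M ∧ ∀ x, ‖x‖ ≤ r → ‖f x‖ ≤ M := by
  obtain ⟨M, hM⟩ := (isCompact_closedBall (0 : EE n) r).exists_bound_of_continuousOn hf.continuousOn
  refine ⟨max M 0, le_max_right _ _, ?_⟩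
  intro x hx
  exact (hM x (by rw [Metric.mem_closedBall, dist_zero_right]; exact hx)).trans (le_max_left _ _)

/-- symplectically unknotted implies limit of unknots -/
theorem hS2C (hSIN : StSIN) (hIET : StIET) (hKNB : StKNB) : StS2C := by
  intro n hn ι i1 i2 i3 i4 ⟨R0, hR0⟩ Ψ Ψi hΨ hP ε hε
  have hΨi := sdsymm hΨ
  obtain ⟨θ, hθ⟩ : ∃ θ : EE n → EE n, θ = fun x => (Ψi (ι x)).1 := ⟨_, rfl⟩
  have f1 : ∀ x, Ψi (ι x) = (θ x, 0) := by
    intro x
    have hx : ι x ∈ Ψ '' Plane n := by rw [hP]; exact ⟨x, rfl⟩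
    obtain ⟨w, hw, hwx⟩ := hx
    have hw2 : w.2 = 0 := hw
    rw [hθ]
    simp only
    rw [← hwx, hΨ.left]
    exact Prod.ext rfl hw2
  have f2 : ∀ x, Ψ (θ x, 0) = ι x := by
    intro x
    rw [← f1, hΨ.right]
  have t1 : ContDiff ℝ ∞ θ := by
    rw [hθ]
    exact contDiff_fst.comp (hΨ.smi.comp i1)
  have t2 : Function.Injective θ := by
    intro x x' h
    apply i4
    rw [← f2, ← f2, h]
  have t3 : ∀ x u, fderiv ℝ θ x u = 0 → u = 0 := by
    intro x u hu
    apply i3 x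
    have e1 := (dfd hΨ.sm ((θ x, 0) : WW n)).comp x
      (((ContinuousLinearMap.inl ℝ (EE n) (EE n)).hasFDerivAt (x := θ x)).comp x (dfd t1 x))
    have e2 : (Ψ ∘ ((ContinuousLinearMap.inl ℝ (EE n) (EE n)) ∘ θ)) = ι := by
      funext y
      exact f2 y
    rw [e2] at e1
    rw [e1.fderiv]
    show fderiv ℝ Ψ (θ x, 0) ((fderiv ℝ θ x) u, 0) = 0
    rw [hu]
    exact map_zero _
  have t4 : ∀ y, ∃ x, θ x = y := by
    intro y
    have hy : Ψ (y, 0) ∈ Set.range ι := by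
      rw [← hP]
      exact ⟨(y, 0), rfl, rfl⟩
    obtain ⟨x, hx⟩ := hy
    refine ⟨x, ?_⟩
    have := f1 x
    rw [hx, hΨ.left] at this
    exact (Prod.mk.inj this).1.symm
  obtain ⟨-, θi, s1, s2⟩ := hSIN (EE n) θ Set.univ t1 isOpen_univ t2.injOn (fun w _ => t3 w)
  have s3 : ∀ x, θi (θ x) = x := fun x => s1 x (Set.mem_univ x)
  have s4 : ∀ y, θ (θi y) = y := by
    intro y
    obtain ⟨x, rfl⟩ := t4 y
    rw [s3]
  have s5 : ContDiff ℝ ∞ θi := by
    rw [contDiff_iff_contDiffAt]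
    intro y
    obtain ⟨x, rfl⟩ := t4 y
    exact s2 x (Set.mem_univ x)
  have s6 : Function.Injective θi := by
    intro y y' h
    rw [← s4 y, h, s4]
  have s7 : ∀ y u, fderiv ℝ θi y u = 0 → u = 0 := by
    intro y u hu
    have e1 := (dfd t1 (θi y)).comp y (dfd s5 y)
    have e2 : θ ∘ θi = fun y => y := funext s4
    rw [e2] at e1
    have e3 := e1.unique (hasFDerivAt_id y)
    have e4 := congrArg (fun L : EE n →L[ℝ] EE n => L u) e3
    simp [hu] at e4
    exact e4.symm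
  -- the map beta
  obtain ⟨β, hβ⟩ : ∃ β : EE n → WW n, β = fun x => Ψi (θi x, 0) := ⟨_, rfl⟩
  have b1 : Gd β := by
    rw [hβ]
    exact comp_left hΨi (comp_right base s5 s6 s7)
  obtain ⟨M, hM0, hM⟩ := bdd θ t1.continuous R0
  have b2 : ∀ x, M < ‖x‖ → β x = (x, 0) := by
    intro x hx
    have h1 : R0 ≤ ‖θi x‖ := by
      by_contra hlt
      push Not at hlt
      have := hM (θi x) hlt.le
      rw [s4] at this
      linarith
    have h2 := hR0 _ h1
    have h3 := f1 (θi x)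
    rw [h2, s4] at h3
    rw [hβ]
    exact h3
  obtain ⟨S, hS⟩ : ∃ S : ℝ, S = M + 1 := ⟨_, rfl⟩
  have hS0 : 0 < S := by rw [hS]; linarith
  obtain ⟨B, hB0, hB⟩ := bdd β b1.1.continuous S
  have b3 : ∀ x, S ≤ ‖x‖ → β x = (x, 0) := fun x hx => b2 x (by rw [hS] at hx; linarith)
  obtain ⟨M', hM'0, hM'⟩ := bdd θi s5.continuous S
  obtain ⟨R1, hR1⟩ : ∃ R1 : ℝ, R1 = max R0 (M' + 1) := ⟨_, rfl⟩
  have b4 : ∀ x, R1 ≤ ‖x‖ → R0 ≤ ‖x‖ ∧ S ≤ ‖θ x‖ := by
    intro x hx
    rw [hR1] at hx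
    refine ⟨(le_max_left _ _).trans hx, ?_⟩
    by_contra hlt
    push Not at hlt
    have h1 := hM' (θ x) hlt.le
    rw [s3] at h1
    have h2 := (le_max_right R0 (M' + 1)).trans hx
    linarith
  -- the family kappa
  obtain ⟨κ, hκ⟩ : ∃ κ : ℝ → EE n → WW n, κ = fun l x => Ψ (l • β (l⁻¹ • θ x)) := ⟨_, rfl⟩
  have k1 : ∀ l, 0 < l → Gd (κ l) := by
    intro l hl
    rw [hκ]
    exact comp_left hΨ (comp_right (scale b1 hl) t1 t2 t3)
  have k2 : ∀ l, 0 < l → ∀ x, S ≤ ‖l⁻¹ • θ x‖ → κ l x = ι x := by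
    intro l hl x hx
    rw [hκ]
    simp only
    rw [b3 _ hx, ← f2 x]
    congr 1
    rw [Prod.smul_mk, smul_smul, mul_inv_cancel₀ hl.ne', one_smul, smul_zero]
  have k3 : ∀ l, 0 < l → l ≤ 1 → ∀ x, R1 ≤ ‖x‖ → κ l x = (x, 0) := by
    intro l hl hl1 x hx
    obtain ⟨h1, h2⟩ := b4 x hx
    rw [k2 l hl x, hR0 x h1]
    rw [norm_smul, norm_inv, Real.norm_eq_abs, abs_of_pos hl]
    have h3 : 1 ≤ l⁻¹ := (one_le_inv₀ hl).mpr hl1
    nlinarith [norm_nonneg (θ x)]
  have k4 : ∀ x, κ 1 x = (x, 0) := by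
    intro x
    rw [hκ]
    simp only
    rw [inv_one, one_smul, one_smul, hβ]
    simp only
    rw [s3, hΨ.right]
  -- choice of the parameter
  have huc := (isCompact_closedBall (0 : WW n) B).uniformContinuousOn_of_continuous
    hΨ.sm.continuous.continuousOn
  rw [Metric.uniformContinuousOn_iff] at huc
  obtain ⟨δ, hδ, huc⟩ := huc ε hε
  obtain ⟨l, hl0, hl1, hlB⟩ : ∃ l : ℝ, 0 < l ∧ l ≤ 1 ∧ l * B < δ := by
    refine ⟨min 1 (δ / (B + 1)), lt_min one_pos (by positivity), min_le_left _ _, ?_⟩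
    calc min 1 (δ / (B + 1)) * B ≤ δ / (B + 1) * B :=
          mul_le_mul_of_nonneg_right (min_le_right _ _) hB0
      _ < δ := by
          rw [div_mul_eq_mul_div, div_lt_iff₀ (by linarith)]
          nlinarith
  refine ⟨κ l, (k1 l hl0).1, (k1 l hl0).2.1, (k1 l hl0).2.2.1, (k1 l hl0).2.2.2,
    ⟨R1, k3 l hl0 hl1⟩, ?_, ?_⟩
  · -- the isotopy
    obtain ⟨L, hL⟩ : ∃ L : ℝ → ℝ, L = fun t => 1 - Real.smoothTransition t +
      Real.smoothTransition t * l := ⟨_, rfl⟩
    have hL0 : ∀ t, 0 < L t ∧ L t ≤ 1 := by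
      intro t
      have h1 := Real.smoothTransition.nonneg t
      have h2 := Real.smoothTransition.le_one t
      rw [hL]
      simp only
      constructor
      · nlinarith [mul_nonneg h1 hl0.le]
      · nlinarith
    have hLs : ContDiff ℝ ∞ L := by
      rw [hL]
      have := Real.smoothTransition.contDiff (n := ⊤)
      fun_prop
    have hsm : ContDiff ℝ ∞ (Function.uncurry (fun t => κ (L t))) := by
      have e1 : Function.uncurry (fun t => κ (L t)) =
          fun p : ℝ × EE n => Ψ (L p.1 • β ((L p.1)⁻¹ • θ p.2)) := by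
        funext p
        rw [hκ]
        rfl
      rw [e1]
      have e2 : ContDiff ℝ ∞ (fun p : ℝ × EE n => L p.1) := hLs.comp contDiff_fst
      have e3 : ContDiff ℝ ∞ (fun p : ℝ × EE n => (L p.1)⁻¹) :=
        e2.inv (fun p => (hL0 p.1).1.ne')
      have e4 : ContDiff ℝ ∞ (fun p : ℝ × EE n => θ p.2) := t1.comp contDiff_snd
      exact hΨ.sm.comp (e2.smul (b1.1.comp (e3.smul e4)))
    have hfin := hIET n hn (fun t => κ (L t)) R1 hsm (fun t _ => (k1 _ (hL0 t).1).2.1)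
      (fun t _ => (k1 _ (hL0 t).1).2.2.1) (fun t _ => (k1 _ (hL0 t).1).2.2.2)
      (fun t _ => k3 _ (hL0 t).1 (hL0 t).2)
    have hLz : L 0 = 1 := by
      rw [hL]
      simp
    have hLo : L 1 = l := by
      rw [hL]
      simp
    have hr : Set.range (κ 1) = Plane n := by
      ext w
      constructor
      · rintro ⟨x, rfl⟩
        rw [k4]
        rfl
      · intro hw
        have hw2 : w.2 = 0 := hw
        refine ⟨w.1, ?_⟩
        rw [k4]
        exact Prod.ext rfl hw2.symm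
    simp only [hLz, hLo, hr] at hfin
    exact hfin
  · intro x
    by_cases hx : S ≤ ‖l⁻¹ • θ x‖
    · refine ⟨x, ?_⟩
      rw [k2 l hl0 x hx, sub_self, norm_zero]
      exact hε
    · push Not at hx
      obtain ⟨z, hz⟩ : ∃ z : WW n, z = l • β (l⁻¹ • θ x) := ⟨_, rfl⟩
      have hz1 : ‖z‖ ≤ l * B := by
        rw [hz, norm_smul, Real.norm_eq_abs, abs_of_pos hl0]
        exact mul_le_mul_of_nonneg_left (hB _ hx.le) hl0.le
      have hz2 : ‖z‖ ≤ B := hz1.trans (by nlinarith)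
      have hz3 : ‖((z.1, 0) : WW n)‖ ≤ ‖z‖ := by
        rw [Prod.norm_mk, norm_zero, max_eq_left (norm_nonneg _)]
        exact norm_fst_le z
      have hz4 : dist z ((z.1, 0) : WW n) < δ := by
        rw [dist_eq_norm]
        have e1 : z - ((z.1, 0) : WW n) = ((0, z.2) : WW n) := by
          apply Prod.ext
          · simp
          · simp
        rw [e1, Prod.norm_mk, norm_zero, max_eq_right (norm_nonneg _)]
        exact lt_of_le_of_lt ((norm_snd_le z).trans hz1) hlB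
      have hz5 := huc z (by rw [Metric.mem_closedBall, dist_zero_right]; exact hz2) (z.1, 0)
        (by rw [Metric.mem_closedBall, dist_zero_right]; exact hz3.trans hz2) hz4
      refine ⟨θi z.1, ?_⟩
      rw [← f2 (θi z.1), s4, hκ]
      simp only
      rw [← hz, ← dist_eq_norm]
      exact hz5

end Pool.Agent.Helper21.LC
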